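import Mathlib
import Pool.Agent.Helper546.Four

set_option autoImplicit false

namespace Pool.Agent.Results.MP_dac83a_an.TwistedCross

/-- the second Dirichlet eigenvalue of an open set, as the min-max value over planes of smooth
compactly supported functions -/
noncomputable def lambda2 (Ω : Set (EuclideanSpace ℝ (Fin 2))) : ℝ :=
  sInf {m : ℝ | ∃ φ₁ φ₂ : EuclideanSpace ℝ (Fin 2) → ℝ,
    ContDiff ℝ ((⊤ : ℕ∞) : WithTop ℕ∞) φ₁ ∧ HasCompactSupport φ₁ ∧ tsupport φ₁ ⊆ Ω ∧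
    ContDiff ℝ ((⊤ : ℕ∞) : WithTop ℕ∞) φ₂ ∧ HasCompactSupport φ₂ ∧ tsupport φ₂ ⊆ Ω ∧
    LinearIndependent ℝ ![φ₁, φ₂] ∧
    ∀ a b : ℝ,
      ∫ y, ‖fderiv ℝ (fun z => a * φ₁ z + b * φ₂ z) y‖ ^ 2 ≤
        m * ∫ y, (a * φ₁ y + b * φ₂ y) ^ 2}

/-- a second Dirichlet eigenfunction of an open set -/
def IsSecondEigenfunction (Ω : Set (EuclideanSpace ℝ (Fin 2)))
    (u : EuclideanSpace ℝ (Fin 2) → ℝ) : Prop :=
  ContDiffOn ℝ ((⊤ : ℕ∞) : WithTop ℕ∞) u Ω ∧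
  (∃ x ∈ Ω, u x ≠ 0) ∧
  (∀ x ∈ Ω,
    -(∑ i : Fin 2, iteratedFDeriv ℝ 2 u x (fun _ => EuclideanSpace.single i (1 : ℝ))) =
      lambda2 Ω * u x) ∧
  ∃ φ : ℕ → EuclideanSpace ℝ (Fin 2) → ℝ,
    (∀ n, ContDiff ℝ ((⊤ : ℕ∞) : WithTop ℕ∞) (φ n) ∧ HasCompactSupport (φ n) ∧
        tsupport (φ n) ⊆ Ω ∧
        MeasureTheory.IntegrableOn
          (fun x => (φ n x - u x) ^ 2 + ‖fderiv ℝ (φ n) x - fderiv ℝ u x‖ ^ 2) Ω) ∧
    Filter.Tendsto
      (fun n => ∫ x in Ω, ((φ n x - u x) ^ 2 + ‖fderiv ℝ (φ n) x - fderiv ℝ u x‖ ^ 2))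
      Filter.atTop (nhds 0)

/-- There is a bounded simply connected plane domain with a second Dirichlet eigenfunction whose
nodal line meets the boundary either nowhere or in at least four points. -/
theorem result :
    ∃ Ω : Set (EuclideanSpace ℝ (Fin 2)),
      IsOpen Ω ∧ Ω ⊆ Metric.ball 0 1 ∧ ContractibleSpace Ω ∧ SimplyConnectedSpace Ω ∧
      ∃ u : EuclideanSpace ℝ (Fin 2) → ℝ, IsSecondEigenfunction Ω u ∧
        Continuous u ∧ (∀ x, x ∉ Ω → u x = 0) ∧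
        (closure {x | x ∈ Ω ∧ u x = 0} ∩ frontier Ω = ∅ ∨
          ∃ p : Fin 4 → EuclideanSpace ℝ (Fin 2), Function.Injective p ∧
            ∀ i, p i ∈ closure {x | x ∈ Ω ∧ u x = 0} ∩ frontier Ω) := by
  obtain ⟨f, hf, hne, h⟩ := Pool.Agent.Helper546.main_four
  refine ⟨Pool.Agent.Helper546.Dom, Pool.Agent.Helper546.isOpen_Dom,
    Pool.Agent.Helper546.Dom_subset_ball, ?_, Pool.Agent.Helper546.simplyConnected_Dom, f,
    ⟨hf.smooth, hne, ?_, hf.approx⟩, hf.cont, hf.zero, h⟩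
  · have : ContractibleSpace Pool.Agent.Helper546.Dom0 :=
      Pool.Agent.Helper546.starConvex_Dom0.contractibleSpace
        ⟨0, by rw [Pool.Agent.Helper546.Dom0, Set.mem_ofPred_eq]; simp⟩
    exact Pool.Agent.Helper546.homeoDom.contractibleSpace
  · intro x hx
    have h1 : ContDiffAt ℝ 2 f x :=
      (hf.smooth.contDiffAt (Pool.Agent.Helper546.isOpen_Dom.mem_nhds hx)).of_le
        Pool.Agent.Helper546.two_le_infty
    have h2 := hf.helm x hx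
    rw [Pool.Agent.Helper546.sum_iteratedFDeriv_eq h1, h2, neg_mul, neg_neg]
    rfl

end Pool.Agent.Results.MP_dac83a_an.TwistedCross
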